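import Mathlib

/-!
Words with prescribed numbers of letters, and the sums of these numbers.
-/

namespace Pool.Agent.Q327.SMT

open Finset

/-- the weight of a letter -/
def tau {M : ℕ} (i : Fin M) : ℕ := if (i : ℕ) = 0 then 0 else 2 ^ ((i : ℕ) - 1)

/-- the weight of a set of letters -/
def sg {M : ℕ} (S : Finset (Fin M)) : ℕ := ∑ i ∈ S, tau i

theorem sg_inj {M : ℕ} {S T : Finset (Fin M)} (hS : ∀ i ∈ S, (i : ℕ) ≠ 0)
    (hT : ∀ i ∈ T, (i : ℕ) ≠ 0) (h : sg S = sg T) : S = T := by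
  have key : ∀ S : Finset (Fin M), (∀ i ∈ S, (i : ℕ) ≠ 0) →
      sg S = ∑ a ∈ S.image (fun i : Fin M => (i : ℕ) - 1), 2 ^ a := by
    intro S hS
    rw [Finset.sum_image]
    · apply Finset.sum_congr rfl
      intro i hi
      unfold tau
      rw [if_neg (hS i hi)]
    · intro i hi j hj hij
      have h1 := hS i hi
      have h2 := hS j hj
      apply Fin.ext
      simp only at hij
      omega
  rw [key S hS, key T hT] at h
  have h1 := Finset.geomSum_injective (le_refl 2) h
  ext i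
  constructor
  · intro hi
    have h2 : (i : ℕ) - 1 ∈ T.image (fun i : Fin M => (i : ℕ) - 1) := by
      rw [← h1]
      exact Finset.mem_image_of_mem _ hi
    obtain ⟨j, hj, hij⟩ := Finset.mem_image.1 h2
    have h3 := hS i hi
    have h4 := hT j hj
    have : i = j := by apply Fin.ext; omega
    rw [this]
    exact hj
  · intro hi
    have h2 : (i : ℕ) - 1 ∈ S.image (fun i : Fin M => (i : ℕ) - 1) := by
      rw [h1]
      exact Finset.mem_image_of_mem _ hi
    obtain ⟨j, hj, hij⟩ := Finset.mem_image.1 h2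
    have h3 := hT i hi
    have h4 := hS j hj
    have : i = j := by apply Fin.ext; omega
    rw [this]
    exact hj

theorem sg_lt {M : ℕ} (S : Finset (Fin M)) : sg S < 2 ^ M := by
  calc sg S ≤ ∑ i : Fin M, 2 ^ (i : ℕ) := by
        refine (Finset.sum_le_sum_of_subset (Finset.subset_univ S)).trans ?_
        apply Finset.sum_le_sum
        intro i _
        unfold tau
        split_ifs
        · exact Nat.zero_le _
        · exact Nat.pow_le_pow_right (by norm_num) (Nat.sub_le _ _)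
    _ = ∑ i ∈ Finset.range M, 2 ^ i := Fin.sum_univ_eq_sum_range (fun i => 2 ^ i) M
    _ < 2 ^ M := by
        have := Nat.geomSum_lt (m := 2) (n := M) (s := Finset.range M) (le_refl 2)
          (fun i hi => Finset.mem_range.1 hi)
        exact this

/-- the numbers of the letters -/
def cnt (M k x : ℕ) (i : Fin M) : ℕ :=
  if (i : ℕ) = 0 then k - x * sg (Finset.univ : Finset (Fin M)) else x * tau i

theorem sum_cnt_out {M k x : ℕ} (S : Finset (Fin M)) (hS : ∀ i ∈ S, (i : ℕ) ≠ 0) :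
    ∑ i ∈ S, cnt M k x i = x * sg S := by
  unfold sg
  rw [Finset.mul_sum]
  apply Finset.sum_congr rfl
  intro i hi
  unfold cnt
  rw [if_neg (hS i hi)]

theorem sum_cnt_univ {M k x : ℕ} (hM : 0 < M) (hk : x * 2 ^ M ≤ k) :
    ∑ i : Fin M, cnt M k x i = k := by
  have h0 : (⟨0, hM⟩ : Fin M) ∈ (Finset.univ : Finset (Fin M)) := Finset.mem_univ _
  rw [← Finset.add_sum_erase _ _ h0]
  have h1 : ∀ i ∈ (Finset.univ : Finset (Fin M)).erase ⟨0, hM⟩, (i : ℕ) ≠ 0 := by
    intro i hi h
    apply (Finset.mem_erase.1 hi).1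
    apply Fin.ext
    exact h
  rw [sum_cnt_out _ h1]
  have h2 : sg ((Finset.univ : Finset (Fin M)).erase ⟨0, hM⟩) = sg (Finset.univ : Finset (Fin M)) := by
    unfold sg
    rw [← Finset.add_sum_erase _ _ h0]
    simp [tau]
  rw [h2]
  have h3 : cnt M k x ⟨0, hM⟩ = k - x * sg (Finset.univ : Finset (Fin M)) := by simp [cnt]
  rw [h3]
  have h4 : x * sg (Finset.univ : Finset (Fin M)) ≤ k :=
    le_trans (Nat.mul_le_mul_left _ (sg_lt _).le) hk
  omega

theorem sum_cnt_in {M k x : ℕ} (hM : 0 < M) (hk : x * 2 ^ M ≤ k) (S : Finset (Fin M))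
    (hS : (⟨0, hM⟩ : Fin M) ∈ S) : ∑ i ∈ S, cnt M k x i + x * sg Sᶜ = k := by
  have h1 : ∀ i ∈ Sᶜ, (i : ℕ) ≠ 0 := by
    intro i hi h
    apply (Finset.mem_compl.1 hi)
    have : i = ⟨0, hM⟩ := Fin.ext h
    rw [this]
    exact hS
  rw [← sum_cnt_out Sᶜ h1, Finset.sum_add_sum_compl, sum_cnt_univ hM hk]

theorem ratio {x y Y L s t P : ℕ} (hY : L * P ≤ Y) (hx : Y ≤ x ∧ x < Y + L) (hy : Y ≤ y ∧ y < Y + L)
    (hs : s < P) (ht : t < P) (hs1 : 1 ≤ s) (h : x * s = y * t) : x = y := by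
  have hL : 1 ≤ L := by omega
  rcases Nat.lt_trichotomy s t with hst | hst | hst
  · exfalso
    have h1 : x * s ≤ y * s + L * s := by nlinarith
    have h2 : L * s < Y := lt_of_lt_of_le (by nlinarith) hY
    have h3 : y * (s + 1) ≤ y * t := Nat.mul_le_mul_left _ hst
    nlinarith
  · subst hst
    exact Nat.eq_of_mul_eq_mul_right hs1 h
  · exfalso
    have h1 : y * t ≤ x * t + L * t := by nlinarith
    have h2 : L * t < Y := lt_of_lt_of_le (by nlinarith) hY
    have h3 : x * (t + 1) ≤ x * s := Nat.mul_le_mul_left _ hst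
    nlinarith

theorem sums_eq {M k x y Y L : ℕ} (hM : 0 < M) (hY : L * 2 ^ M ≤ Y) (hx : Y ≤ x ∧ x < Y + L)
    (hy : Y ≤ y ∧ y < Y + L) (hk : (x + y) * 2 ^ M ≤ k) (S T : Finset (Fin M))
    (h : ∑ i ∈ S, cnt M k x i = ∑ i ∈ T, cnt M k y i) :
    (x = y → S = T) ∧ (S.Nonempty → S ≠ Finset.univ → x = y) := by
  have hP : 0 < 2 ^ M := by positivity
  have hL : 1 ≤ L := by omega
  have hx0 : 0 < x := by
    have : 1 * 1 ≤ L * 2 ^ M := Nat.mul_le_mul hL hP
    omega
  have hxk : x * 2 ^ M ≤ k := le_trans (Nat.mul_le_mul_right _ (by omega)) hk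
  have hyk : y * 2 ^ M ≤ k := le_trans (Nat.mul_le_mul_right _ (by omega)) hk
  have hno : ∀ S : Finset (Fin M), (⟨0, hM⟩ : Fin M) ∉ S → ∀ i ∈ S, (i : ℕ) ≠ 0 := by
    intro S hS i hi h
    apply hS
    have : i = ⟨0, hM⟩ := Fin.ext h
    rw [← this]
    exact hi
  have hnoc : ∀ S : Finset (Fin M), (⟨0, hM⟩ : Fin M) ∈ S → ∀ i ∈ Sᶜ, (i : ℕ) ≠ 0 := by
    intro S hS
    apply hno
    rw [Finset.mem_compl]
    exact not_not.2 hS
  have hpos : ∀ S : Finset (Fin M), (∀ i ∈ S, (i : ℕ) ≠ 0) → S.Nonempty → 1 ≤ sg S := by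
    intro S hS hne
    by_contra hcon
    have h1 : sg S = sg (∅ : Finset (Fin M)) := by
      have : sg (∅ : Finset (Fin M)) = 0 := rfl
      omega
    have := sg_inj hS (by simp) h1
    rw [this] at hne
    exact Finset.not_nonempty_empty hne
  -- the mixed cases are impossible
  have hmix : ∀ (x y : ℕ) (S T : Finset (Fin M)), 0 < x + y → (x + y) * 2 ^ M ≤ k →
      x * 2 ^ M ≤ k → y * 2 ^ M ≤ k → (⟨0, hM⟩ : Fin M) ∉ S → (⟨0, hM⟩ : Fin M) ∈ T →
      ∑ i ∈ S, cnt M k x i ≠ ∑ i ∈ T, cnt M k y i := by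
    intro x y S T h0 hk' _ hyk' hS hT he
    rw [sum_cnt_out S (hno S hS)] at he
    have h1 := sum_cnt_in hM hyk' T hT
    rw [← he] at h1
    have h2 := sg_lt S
    have h3 := sg_lt Tᶜ
    have h4 : x * sg S + y * sg Tᶜ < (x + y) * 2 ^ M := by
      rcases Nat.eq_zero_or_pos x with hx | hx
      · subst hx
        have hy : 0 < y := by omega
        have := Nat.mul_lt_mul_of_pos_left h3 hy
        simpa using this
      · have h5 := Nat.mul_lt_mul_of_pos_left h2 hx
        have h6 := Nat.mul_le_mul_left y h3.le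
        have h7 : (x + y) * 2 ^ M = x * 2 ^ M + y * 2 ^ M := by ring
        omega
    omega
  by_cases hS : (⟨0, hM⟩ : Fin M) ∈ S
  · by_cases hT : (⟨0, hM⟩ : Fin M) ∈ T
    · have h1 := sum_cnt_in hM hxk S hS
      have h2 := sum_cnt_in hM hyk T hT
      have h3 : x * sg Sᶜ = y * sg Tᶜ := by omega
      constructor
      · intro hxy
        rw [← hxy] at h3
        have h4 := Nat.eq_of_mul_eq_mul_left hx0 h3
        have h5 := sg_inj (hnoc S hS) (hnoc T hT) h4
        exact compl_injective h5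
      · intro _ hne
        have h4 : (Sᶜ).Nonempty := by
          rw [Finset.nonempty_iff_ne_empty]
          intro h5
          exact hne (Finset.compl_eq_empty_iff S |>.1 h5)
        exact ratio hY hx hy (sg_lt _) (sg_lt _) (hpos _ (hnoc S hS) h4) h3
    · exact absurd h.symm (hmix y x T S (by omega) (by rw [Nat.add_comm]; exact hk) hyk hxk hT hS)
  · by_cases hT : (⟨0, hM⟩ : Fin M) ∈ T
    · exact absurd h (hmix x y S T (by omega) hk hxk hyk hS hT)
    · rw [sum_cnt_out S (hno S hS), sum_cnt_out T (hno T hT)] at h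
      constructor
      · intro hxy
        rw [← hxy] at h
        exact sg_inj (hno S hS) (hno T hT) (Nat.eq_of_mul_eq_mul_left hx0 h)
      · intro hne _
        exact ratio hY hx hy (sg_lt _) (sg_lt _) (hpos _ (hno S hS) hne) h

theorem exists_word {M k : ℕ} (c : Fin M → ℕ) (hc : ∑ i, c i = k) :
    ∃ w : Fin k → Fin M, ∀ i, (Finset.univ.filter (fun p => w p = i)).card = c i := by
  subst hc
  refine ⟨fun p => (finSigmaFinEquiv.symm p).1, fun i => ?_⟩
  have h1 : (Finset.univ.filter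
      (fun p : Fin (∑ i, c i) => (finSigmaFinEquiv.symm p : Σ i : Fin M, Fin (c i)).1 = i)).card =
      (Finset.univ : Finset (Fin (c i))).card := by
    symm
    apply Finset.card_bij (fun q _ => (finSigmaFinEquiv ⟨i, q⟩ : Fin (∑ i, c i)))
    · intro q _
      rw [Finset.mem_filter]
      refine ⟨Finset.mem_univ _, ?_⟩
      rw [Equiv.symm_apply_apply]
    · intro q _ q' _ h
      have := finSigmaFinEquiv.injective h
      exact eq_of_heq (Sigma.mk.inj this).2
    · intro p hp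
      obtain ⟨_, hp⟩ := Finset.mem_filter.1 hp
      refine ⟨hp ▸ (finSigmaFinEquiv.symm p).2, Finset.mem_univ _, ?_⟩
      have : (⟨i, hp ▸ (finSigmaFinEquiv.symm p).2⟩ : Σ i : Fin M, Fin (c i)) =
          finSigmaFinEquiv.symm p := by
        subst hp
        rfl
      rw [this, Equiv.apply_symm_apply]
  rw [h1, Finset.card_univ, Fintype.card_fin]

end Pool.Agent.Q327.SMT
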