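import Pool.Agent.Q327.SMT.Rich

/-!
The doubly exponential bound for the probability that a random relation is not rich.
-/

namespace Pool.Agent.Q327.SMT

open Finset Pool.Agent.W994.AR

variable {B : Type}

open Classical in
/-- The probability of the event E for a random subset X of the finite set Ω, if every element o
is put into X with probability p o, independently. -/
noncomputable def Prob {Ω : Type} (p : Ω → ℝ) (E : Set Ω → Prop) : ℝ :=
  ∑ᶠ X ∈ {X : Set Ω | E X}, ∏ᶠ o : Ω, if o ∈ X then p o else 1 - p o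

open Classical in
theorem prob_eq {Ω : Type} [Fintype Ω] (p : Ω → ℝ) (E : Set Ω → Prop) :
    Prob p E = ∑ X ∈ (Finset.univ : Finset (Finset Ω)).filter (fun X : Finset Ω => E (X : Set Ω)),
      wt p X := by
  unfold Prob
  have hfin : {X : Set Ω | E X}.Finite := Set.toFinite _
  rw [finsum_mem_eq_finite_toFinset_sum _ hfin]
  apply Finset.sum_nbij' (fun X : Set Ω => X.toFinset) (fun X : Finset Ω => (X : Set Ω))
  · intro X hX
    rw [Set.Finite.mem_toFinset] at hX
    rw [Finset.mem_filter]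
    refine ⟨Finset.mem_univ _, ?_⟩
    rw [Set.coe_toFinset]
    exact hX
  · intro X hX
    rw [Set.Finite.mem_toFinset]
    exact (Finset.mem_filter.1 hX).2
  · intro X _
    exact Set.coe_toFinset X
  · intro X _
    simp
  · intro X _
    rw [finprod_eq_prod_of_fintype]
    unfold wt
    apply Finset.prod_congr rfl
    intro o _
    simp

open Classical in
theorem prob_mono {Ω : Type} [Finite Ω] {p : Ω → ℝ} (hp : ∀ o, 0 ≤ p o ∧ p o ≤ 1)
    {E F : Set Ω → Prop} (h : ∀ X, E X → F X) : Prob p E ≤ Prob p F := by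
  have := Fintype.ofFinite Ω
  rw [prob_eq, prob_eq]
  apply Finset.sum_le_sum_of_subset_of_nonneg
  · intro X hX
    rw [Finset.mem_filter] at hX ⊢
    exact ⟨hX.1, h _ hX.2⟩
  · intro X _ _
    exact wt_nonneg hp X

open Classical in
theorem prob_le_one {Ω : Type} [Finite Ω] {p : Ω → ℝ} (hp : ∀ o, 0 ≤ p o ∧ p o ≤ 1)
    (E : Set Ω → Prop) : Prob p E ≤ 1 := by
  have := Fintype.ofFinite Ω
  rw [prob_eq, ← sum_wt p]
  apply Finset.sum_le_sum_of_subset_of_nonneg (Finset.subset_univ _)
  intro X _ _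
  exact wt_nonneg hp X

open Classical in
theorem prob_union {Ω ι : Type} [Finite Ω] [Fintype ι] {p : Ω → ℝ} (hp : ∀ o, 0 ≤ p o ∧ p o ≤ 1)
    (E : ι → Set Ω → Prop) : Prob p (fun X => ∃ i, E i X) ≤ ∑ i, Prob p (E i) := by
  have := Fintype.ofFinite Ω
  rw [prob_eq]
  have h1 : ∀ i, Prob p (E i) = ∑ X : Finset Ω, if E i (X : Set Ω) then wt p X else 0 := by
    intro i
    rw [prob_eq, Finset.sum_filter]
  rw [Finset.sum_congr rfl (fun i _ => h1 i), Finset.sum_comm, Finset.sum_filter]
  apply Finset.sum_le_sum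
  intro X _
  have hnn : ∀ i ∈ (Finset.univ : Finset ι), 0 ≤ (if E i (X : Set Ω) then wt p X else 0) := by
    intro i _
    split_ifs
    · exact wt_nonneg hp X
    · exact le_rfl
  split_ifs with h
  · obtain ⟨i, hi⟩ := h
    have h2 := Finset.single_le_sum hnn (Finset.mem_univ i)
    rw [if_pos hi] at h2
    exact h2
  · exact Finset.sum_nonneg hnn

open Classical in
theorem prob_true {Ω : Type} [Finite Ω] (p : Ω → ℝ) : Prob p (fun _ => True) = 1 := by
  have := Fintype.ofFinite Ω
  rw [prob_eq]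
  simp only [Finset.filter_true]
  exact sum_wt p

/-- one relation -/
theorem one_bound (G : Subgroup (Equiv.Perm B)) (M : ℕ) (hM : 0 < M)
    (hfin : ∀ k, Finite (Orb G (Fin k))) :
    ∃ C c : ℝ, 0 < C ∧ 0 < c ∧ ∀ (t : ℕ) (k : Fin t → ℕ) (j : Fin t) (p : Orbs G k → ℝ),
      (∀ o, 0 ≤ p o ∧ p o ≤ 1) →
      (∀ o : Orb G (Fin (k j)), Real.exp (-(c * k j)) ≤ p ⟨j, o⟩ ∧
        p ⟨j, o⟩ ≤ 1 - Real.exp (-(c * k j))) →
      Prob p (fun X => ¬ Rich G (Fin M) (rels G k X j)) ≤
        C * Real.exp (-(Real.exp (c * k j) / 4)) := by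
  classical
  set N := Nat.card (Orb G (Fin M)) with hN
  have hMr : (0 : ℝ) < M := by exact_mod_cast hM
  have hM1 : (1 : ℝ) ≤ M := by exact_mod_cast hM
  have hN0 : (0 : ℝ) ≤ N := Nat.cast_nonneg _
  have hl2 : 0 < Real.log 2 := Real.log_pos (by norm_num)
  have hl21 : Real.log 2 ≤ 1 := by
    have := Real.log_two_lt_d9
    linarith
  set c : ℝ := Real.log 2 / (M * (N + 1)) with hc
  have hc0 : 0 < c := by positivity
  have hcM : c * M ≤ Real.log 2 := by
    rw [hc, div_mul_eq_mul_div, div_le_iff₀ (by positivity)]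
    nlinarith [mul_pos hl2 hMr]
  refine ⟨N + 2, c, by positivity, hc0, ?_⟩
  intro t k j p hp hpj
  have := hfin M
  have hF : ∀ i, Finite (Orb G (Fin (k i))) := fun i => hfin _
  have := Fintype.ofFinite (Orbs G k)
  rcases Nat.lt_or_ge (k j) M with hk | hk
  · -- small arity
    have h1 : Real.exp (c * k j) ≤ 2 := by
      have h2 : c * k j ≤ Real.log 2 := by
        have : (k j : ℝ) ≤ M := by exact_mod_cast hk.le
        nlinarith
      calc Real.exp (c * k j) ≤ Real.exp (Real.log 2) := Real.exp_le_exp.2 h2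
        _ = 2 := Real.exp_log (by norm_num)
    have h4 : (1 : ℝ) / 2 ≤ Real.exp (-(Real.exp (c * k j) / 4)) := by
      have := Real.add_one_le_exp (-(Real.exp (c * k j) / 4))
      linarith
    calc Prob p (fun X => ¬ Rich G (Fin M) (rels G k X j)) ≤ 1 := prob_le_one hp _
      _ ≤ (N + 2) * Real.exp (-(Real.exp (c * k j) / 4)) := by nlinarith
  · -- large arity
    have hq1 : 1 ≤ k j / M := (Nat.one_le_div_iff hM).2 hk
    set m := k j / M - 1 with hm
    have hm1 : m + 1 = k j / M := by omega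
    have hmk : (m + 1) * M ≤ k j := by rw [hm1]; exact Nat.div_mul_le_self (k j) M
    set ε : ℝ := Real.exp (-(c * k j)) with hε
    have hε0 : 0 < ε := Real.exp_pos _
    have hε1 : ε ≤ 1 := Real.exp_le_one_iff.2 (by
      have : 0 ≤ c * (k j : ℝ) := by positivity
      linarith)
    have h := rich_prob G M hM k j m hmk p hp ε hε0 hε1 hpj
    rw [← hN] at h
    rw [prob_eq]
    refine le_trans (le_of_eq ?_) (h.trans ?_)
    · apply Finset.sum_congr
      · ext X
        simp only [Finset.mem_filter]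
      · intro X _
        unfold wt
        apply Finset.prod_congr rfl
        intro o _
        by_cases ho : o ∈ X
        · rw [if_pos ho, if_pos ho]
        · rw [if_neg ho, if_neg ho]
    have hx0 : (0 : ℝ) < ε ^ N := by positivity
    have hx1 : ε ^ N ≤ 1 := pow_le_one₀ hε0.le hε1
    have h1 : (1 - ε ^ N) ^ (2 ^ m) ≤ Real.exp (-(ε ^ N * 2 ^ m)) := by
      have h2 : 1 - ε ^ N ≤ Real.exp (-ε ^ N) := by
        have := Real.add_one_le_exp (-ε ^ N)
        linarith
      calc (1 - ε ^ N) ^ (2 ^ m) ≤ Real.exp (-ε ^ N) ^ (2 ^ m) :=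
            pow_le_pow_left₀ (by linarith) h2 _
        _ = _ := by
            rw [← Real.exp_nat_mul]
            congr 1
            push_cast
            ring
    have h3 : (2 : ℝ) ^ ((k j : ℝ) / M) / 4 ≤ 2 ^ m := by
      have h4 : ((k j : ℝ) / M) ≤ (m : ℝ) + 2 := by
        have h5 : (k j : ℝ) < ((k j / M : ℕ) + 1 : ℝ) * M := by
          have := Nat.lt_mul_of_div_lt (Nat.lt_succ_self (k j / M)) hM
          exact_mod_cast this
        rw [div_le_iff₀ hMr]
        have h6 : ((k j / M : ℕ) : ℝ) = m + 1 := by rw [← hm1]; push_cast; ring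
        rw [h6] at h5
        linarith
      have h7 : (2 : ℝ) ^ ((k j : ℝ) / M) ≤ (2 : ℝ) ^ ((m : ℝ) + 2) :=
        Real.rpow_le_rpow_of_exponent_le (by norm_num) h4
      have h8 : (2 : ℝ) ^ ((m : ℝ) + 2) = 2 ^ m * 4 := by
        rw [Real.rpow_add (by norm_num), Real.rpow_natCast]
        norm_num
      rw [h8] at h7
      linarith
    have h10 : Real.exp (c * k j) / 4 ≤ ε ^ N * 2 ^ m := by
      have h11 : ε ^ N * (2 : ℝ) ^ ((k j : ℝ) / M) = Real.exp (c * k j) := by
        rw [hε, ← Real.exp_nat_mul, Real.rpow_def_of_pos (by norm_num), ← Real.exp_add]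
        congr 1
        rw [hc]
        field_simp
        ring
      calc Real.exp (c * k j) / 4 = ε ^ N * ((2 : ℝ) ^ ((k j : ℝ) / M) / 4) := by
            rw [← h11]; ring
        _ ≤ ε ^ N * 2 ^ m := mul_le_mul_of_nonneg_left h3 hx0.le
    have h12 : Real.exp (-(ε ^ N * 2 ^ m)) ≤ Real.exp (-(Real.exp (c * k j) / 4)) :=
      Real.exp_le_exp.2 (by linarith)
    calc (N : ℝ) * (1 - ε ^ N) ^ (2 ^ m) ≤ N * Real.exp (-(Real.exp (c * k j) / 4)) :=
          mul_le_mul_of_nonneg_left (h1.trans h12) hN0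
      _ ≤ (N + 2) * Real.exp (-(Real.exp (c * k j) / 4)) := by
          apply mul_le_mul_of_nonneg_right (by linarith) (Real.exp_pos _).le

/-- several relations -/
theorem many_bound (G : Subgroup (Equiv.Perm B)) (M : ℕ) (hM : 0 < M)
    (hfin : ∀ k, Finite (Orb G (Fin k))) :
    ∃ C c : ℝ, 0 < C ∧ 0 < c ∧ ∀ (t : ℕ) (k : Fin t → ℕ) (m : ℕ) (p : Orbs G k → ℝ),
      (∀ j, m ≤ k j) →
      (∀ o : Orbs G k, Real.exp (-(c * k o.1)) ≤ p o ∧ p o ≤ 1 - Real.exp (-(c * k o.1))) →
      Prob p (fun X => ∃ j, ¬ Rich G (Fin M) (rels G k X j)) ≤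
        t * C * Real.exp (-(Real.exp (c * m) / 4)) := by
  obtain ⟨C, c, hC, hc, h⟩ := one_bound G M hM hfin
  refine ⟨C, c, hC, hc, ?_⟩
  intro t k m p hm hp
  have hF : ∀ i, Finite (Orb G (Fin (k i))) := fun i => hfin _
  have hp01 : ∀ o, 0 ≤ p o ∧ p o ≤ 1 := by
    intro o
    have h1 := hp o
    have h2 := Real.exp_pos (-(c * k o.1))
    exact ⟨by linarith, by linarith⟩
  refine (prob_union hp01 _).trans ?_
  calc ∑ j, Prob p (fun X => ¬ Rich G (Fin M) (rels G k X j))
      ≤ ∑ _j : Fin t, C * Real.exp (-(Real.exp (c * m) / 4)) := by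
        apply Finset.sum_le_sum
        intro j _
        refine (h t k j p hp01 (fun o => hp ⟨j, o⟩)).trans ?_
        apply mul_le_mul_of_nonneg_left _ hC.le
        apply Real.exp_le_exp.2
        have h5 : Real.exp (c * m) ≤ Real.exp (c * k j) := by
          apply Real.exp_le_exp.2
          apply mul_le_mul_of_nonneg_left _ hc.le
          exact_mod_cast hm j
        linarith
    _ = _ := by
        rw [Finset.sum_const, Finset.card_univ, Fintype.card_fin, nsmul_eq_mul]
        ring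

end Pool.Agent.Q327.SMT
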