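import Pool.Agent.Q327.SMT.Bound

/-!
Every template is within a bounded number of orbits of a template of maximal hardness.
-/

namespace Pool.Agent.Q327.SMT

open Finset Pool.Agent.W994.AR

variable {B : Type}

/-- families of invariant relations are the same as sets of orbits -/
theorem rels_unique (G : Subgroup (Equiv.Perm B)) {t : ℕ} (k : Fin t → ℕ) (R : Str (Fin t) k B)
    (hR : ∀ j, Invar G (R j)) : ∃! X : Set (Orbs G k), rels G k X = R := by
  refine ⟨{x | ∃ v ∈ R x.1, Quotient.mk (orb G (Fin (k x.1))) v = x.2}, ?_, ?_⟩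
  · funext j
    ext v
    constructor
    · rintro ⟨u, hu, h⟩
      exact Same.mem (Quotient.exact h) (hR j) hu
    · intro hv
      exact ⟨v, hv, rfl⟩
  · rintro X rfl
    ext ⟨j, o⟩
    constructor
    · intro h
      obtain ⟨v, rfl⟩ := Quotient.exists_rep o
      exact ⟨v, h, rfl⟩
    · rintro ⟨v, hv, h⟩
      simp only at h
      rw [← h]
      exact hv

/-- the orbits of constant tuples -/
def IsCon (G : Subgroup (Equiv.Perm B)) {t : ℕ} (k : Fin t → ℕ) (x : Orbs G k) : Prop :=
  ∃ b : B, x.2 = Quotient.mk (orb G (Fin (k x.1))) (fun _ => b)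

theorem phi_not_con (G : Subgroup (Equiv.Perm B)) (M : ℕ) (hM : 0 < M) {t : ℕ} (k : Fin t → ℕ)
    (j : Fin t) (hMk : M ≤ k j) (A : Finset ℕ) (o : Orb G (Fin M)) (ho : IsNC G M o) :
    ¬ IsCon G k (phi G M hM k j A o) := by
  obtain ⟨u, hu, rfl⟩ := ho
  rintro ⟨b, hb⟩
  rw [phi_mk] at hb
  have hs : Same G (u ∘ word M (k j) hM A) (fun _ => b) := Quotient.exact hb
  obtain ⟨g, hg, h⟩ := hs
  obtain ⟨i, i', hii⟩ := hu
  apply hii
  apply g.injective
  have h1 : ∀ o : Fin M, g (u o) = b := by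
    intro o
    have h2 : 0 * M + (o : ℕ) < k j := by
      rw [Nat.zero_mul, Nat.zero_add]; exact lt_of_lt_of_le o.2 hMk
    have := h ⟨0 * M + o, h2⟩
    simp only [Function.comp, word_pos M (k j) hM A 0 (Or.inl rfl) o h2] at this
    exact this
  rw [h1 i, h1 i']

theorem near_rich (G : Subgroup (Equiv.Perm B)) (M : ℕ) (hM : 0 < M)
    (hfin : ∀ k, Finite (Orb G (Fin k))) :
    ∃ K k₀ : ℕ, ∀ (t : ℕ) (k : Fin t → ℕ), (∀ j, k₀ ≤ k j) → ∀ X₀ : Set (Orbs G k),
      ∃ X : Set (Orbs G k),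
        (∀ j, {o : Orb G (Fin (k j)) | ¬ ((⟨j, o⟩ : Orbs G k) ∈ X ↔ (⟨j, o⟩ : Orbs G k) ∈ X₀)}.ncard
          ≤ K) ∧
        (∀ j, Rich G (Fin M) (rels G k X j)) ∧ ∀ x ∈ X, ¬ IsCon G k x := by
  classical
  have := hfin M
  have := Fintype.ofFinite (Orb G (Fin M))
  have := hfin 1
  have := Fintype.ofFinite (Orb G (Fin 1))
  set N := Nat.card (Orb G (Fin M)) with hN
  have hNF : Fintype.card (Orb G (Fin M)) = N := (Nat.card_eq_fintype_card).symm
  refine ⟨N * N + Nat.card (Orb G (Fin 1)), (N + 1) * M, ?_⟩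
  intro t k hk X₀
  have hMk : ∀ j, M ≤ k j := fun j => le_trans (by nlinarith) (hk j)
  -- distinct words for the orbits
  obtain ⟨A, hAinj, hAsub⟩ : ∃ A : Orb G (Fin M) → Finset ℕ, Function.Injective A ∧
      ∀ o, A o ⊆ Finset.Icc 1 N := by
    have hcard : Fintype.card (Orb G (Fin M)) ≤
        Fintype.card ((Finset.Icc 1 N).powerset : Finset (Finset ℕ)) := by
      rw [Fintype.card_coe, Finset.card_powerset, Nat.card_Icc, hNF, Nat.add_sub_cancel]
      exact Nat.lt_two_pow_self.le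
    obtain ⟨f⟩ := Function.Embedding.nonempty_of_card_le hcard
    exact ⟨fun o => (f o).1, fun o o' h => f.injective (Subtype.ext h),
      fun o => Finset.mem_powerset.1 (f o).2⟩
  let inD : Orbs G k → Prop := fun x => ∃ (j : Fin t) (o o' : Orb G (Fin M)),
    IsNC G M o ∧ IsNC G M o' ∧ x = phi G M hM k j (A o) o'
  let X : Set (Orbs G k) := {x | (∃ (j : Fin t) (o o' : Orb G (Fin M)),
    IsNC G M o ∧ IsNC G M o' ∧ o' ≠ o ∧ x = phi G M hM k j (A o) o') ∨
      (x ∈ X₀ ∧ ¬ inD x ∧ ¬ IsCon G k x)}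
  have key : ∀ (j : Fin t) (o o' : Orb G (Fin M)), IsNC G M o → IsNC G M o' →
      (phi G M hM k j (A o) o' ∈ X ↔ o' ≠ o) := by
    intro j o o' ho ho'
    constructor
    · rintro (⟨j1, o1, o1', ho1, ho1', hne, h⟩ | ⟨_, h, _⟩)
      · have hj : j = j1 := congrArg Sigma.fst h
        subst hj
        have hAA : A o = A o1 := by
          by_contra hne'
          exact phi_ne G M hM k j N (hk j) (A o) (A o1) (hAsub o) (hAsub o1) hne' o' o1' ho' ho1' h
        have hoo : o = o1 := hAinj hAA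
        subst hoo
        have := phi_inj G M hM k j (hMk j) (A o) h
        rw [this]
        exact hne
      · exact absurd ⟨j, o, o', ho, ho', rfl⟩ h
    · intro hne
      exact Or.inl ⟨j, o, o', ho, ho', hne, rfl⟩
  refine ⟨X, ?_, ?_, ?_⟩
  · intro j
    let F1 : Orb G (Fin M) × Orb G (Fin M) → Orb G (Fin (k j)) := fun q =>
      (phi G M hM k j (A q.1) q.2).2
    let F2 : Orb G (Fin 1) → Orb G (Fin (k j)) :=
      Quotient.map' (s₁ := orb G (Fin 1)) (s₂ := orb G (Fin (k j)))
        (fun u => u ∘ (fun _ => (0 : Fin 1))) (fun _ _ h => Same.comp h _)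
    have hsub : {o : Orb G (Fin (k j)) |
        ¬ ((⟨j, o⟩ : Orbs G k) ∈ X ↔ (⟨j, o⟩ : Orbs G k) ∈ X₀)} ⊆
        ((((Finset.univ : Finset (Orb G (Fin M) × Orb G (Fin M))).image F1) ∪
        ((Finset.univ : Finset (Orb G (Fin 1))).image F2) : Finset (Orb G (Fin (k j)))) :
          Set (Orb G (Fin (k j)))) := by
      intro o ho
      rw [Set.mem_ofPred_eq] at ho
      rw [Finset.mem_coe, Finset.mem_union]
      by_cases hD : inD ⟨j, o⟩
      · left
        obtain ⟨j1, o1, o1', _, _, h⟩ := hD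
        have hj : j = j1 := congrArg Sigma.fst h
        subst hj
        have h2 := eq_of_heq (Sigma.mk.inj h).2
        exact Finset.mem_image.2 ⟨(o1, o1'), Finset.mem_univ _, h2.symm⟩
      · by_cases hC : IsCon G k ⟨j, o⟩
        · right
          obtain ⟨b, hb⟩ := hC
          simp only at hb
          exact Finset.mem_image.2 ⟨Quotient.mk (orb G (Fin 1)) (fun _ => b), Finset.mem_univ _,
            hb.symm⟩
        · exfalso
          apply ho
          constructor
          · rintro (⟨j1, o1, o1', ho1, ho1', _, h⟩ | ⟨h, _, _⟩)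
            · exact absurd ⟨j1, o1, o1', ho1, ho1', h⟩ hD
            · exact h
          · intro h
            exact Or.inr ⟨h, hD, hC⟩
    refine (Set.ncard_le_ncard hsub (Finset.finite_toSet _)).trans ?_
    rw [Set.ncard_coe_finset]
    refine (Finset.card_union_le _ _).trans ?_
    apply Nat.add_le_add
    · refine Finset.card_image_le.trans ?_
      rw [Finset.card_univ, Fintype.card_prod, hNF]
    · refine Finset.card_image_le.trans ?_
      rw [Finset.card_univ, Nat.card_eq_fintype_card]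
  · intro j
    by_contra hR
    obtain ⟨o, ho, h⟩ := not_rich G M hM k j _ hR
    exact h (A o) (fun o' ho' => key j o o' ho ho')
  · rintro x (⟨j, o, o', _, ho', _, rfl⟩ | ⟨_, _, h⟩)
    · exact phi_not_con G M hM k j (hMk j) (A o) o' ho'
    · exact h

end Pool.Agent.Q327.SMT
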