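import Mathlib

/-!
Random subsets of a finite set: every element is taken with its own probability, independently.
-/

namespace Pool.Agent.Q327.SMT

open Finset

variable {Ω κ : Type} [Fintype Ω] [DecidableEq Ω]

/-- the probability that the random set is X -/
def wt (p : Ω → ℝ) (X : Finset Ω) : ℝ := ∏ o, if o ∈ X then p o else 1 - p o

theorem wt_nonneg {p : Ω → ℝ} (hp : ∀ o, 0 ≤ p o ∧ p o ≤ 1) (X : Finset Ω) : 0 ≤ wt p X := by
  apply Finset.prod_nonneg
  intro o _
  split_ifs
  · exact (hp o).1
  · linarith [(hp o).2]

theorem wt_split (p : Ω → ℝ) (D X : Finset Ω) : wt p X =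
    (∏ o ∈ D, if o ∈ X then p o else 1 - p o) * ∏ o ∈ Dᶜ, if o ∈ X then p o else 1 - p o :=
  (Finset.prod_mul_prod_compl D _).symm

theorem sum_powerset_wt (p : Ω → ℝ) (D : Finset Ω) :
    ∑ T ∈ D.powerset, ∏ o ∈ D, (if o ∈ T then p o else 1 - p o) = 1 := by
  have h := Finset.prod_add (fun o => p o) (fun o => 1 - p o) D
  have h1 : ∏ o ∈ D, (p o + (1 - p o)) = 1 := by
    apply Finset.prod_eq_one
    intro o _
    ring
  rw [h1] at h
  refine (Finset.sum_congr rfl ?_).trans h.symm
  intro T hT
  rw [← Finset.prod_sdiff (Finset.mem_powerset.1 hT), mul_comm]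
  congr 1
  · apply Finset.prod_congr rfl
    intro o ho
    rw [if_pos ho]
  · apply Finset.prod_congr rfl
    intro o ho
    rw [if_neg (Finset.mem_sdiff.1 ho).2]

theorem sum_wt (p : Ω → ℝ) : ∑ X : Finset Ω, wt p X = 1 := by
  have h := sum_powerset_wt p (Finset.univ : Finset Ω)
  rw [Finset.powerset_univ] at h
  exact h

/-- the probability that the random set avoids prescribed traces on pairwise disjoint sets -/
theorem count (p : Ω → ℝ) (hp : ∀ o, 0 ≤ p o ∧ p o ≤ 1) (ε : ℝ) (hε0 : 0 < ε) (hε1 : ε ≤ 1) (d : ℕ)
    (W : Finset κ) (D A : κ → Finset Ω) (hA : ∀ w ∈ W, A w ⊆ D w) (hd : ∀ w ∈ W, (D w).card ≤ d)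
    (hdis : ∀ w ∈ W, ∀ w' ∈ W, w ≠ w' → Disjoint (D w) (D w'))
    (hpD : ∀ w ∈ W, ∀ o ∈ D w, ε ≤ p o ∧ p o ≤ 1 - ε) :
    ∑ R ∈ (Finset.univ : Finset (Finset Ω)).filter (fun R => ∀ w ∈ W, R ∩ D w ≠ A w), wt p R ≤
      (1 - ε ^ d) ^ W.card := by
  classical
  induction W using Finset.induction_on with
  | empty =>
    simp [sum_wt]
  | insert w0 W hw0 ih =>
    have ih' := ih (fun w hw => hA w (mem_insert_of_mem hw)) (fun w hw => hd w (mem_insert_of_mem hw))
      (fun w hw w' hw' => hdis w (mem_insert_of_mem hw) w' (mem_insert_of_mem hw'))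
      (fun w hw => hpD w (mem_insert_of_mem hw))
    set X := (Finset.univ : Finset (Finset Ω)).filter (fun R => ∀ w ∈ W, R ∩ D w ≠ A w) with hX
    set X0 := X.filter (fun R => R ∩ D w0 = A w0) with hX0
    set Y := (Finset.univ : Finset (Finset Ω)).filter (fun R => ∀ w ∈ insert w0 W, R ∩ D w ≠ A w)
      with hY
    have hYX : ∑ R ∈ X0, wt p R + ∑ R ∈ Y, wt p R = ∑ R ∈ X, wt p R := by
      have : Y = X.filter (fun R => ¬ (R ∩ D w0 = A w0)) := by
        ext R
        simp only [hY, hX, mem_filter, mem_univ, true_and, mem_insert, forall_eq_or_imp]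
        tauto
      rw [this]
      exact Finset.sum_filter_add_sum_filter_not X (fun R => R ∩ D w0 = A w0) _
    have hA0 := hA w0 (mem_insert_self _ _)
    -- the sum over X
    have hsum : ∑ R ∈ X, wt p R = ∑ R ∈ X0, ∏ o ∈ (D w0)ᶜ, (if o ∈ R then p o else 1 - p o) := by
      have h1 : ∑ R ∈ X, wt p R = ∑ q ∈ X0 ×ˢ (D w0).powerset, wt p ((q.1 \ D w0) ∪ q.2) := by
        apply Finset.sum_nbij' (fun R => ((R \ D w0) ∪ A w0, R ∩ D w0)) (fun q => (q.1 \ D w0) ∪ q.2)
        · intro R hR
          simp only [hX, hX0, mem_filter, mem_univ, true_and, mem_product, mem_powerset] at hR ⊢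
          refine ⟨⟨?_, ?_⟩, inter_subset_right⟩
          · intro w hw h
            apply hR w hw
            rw [← h]
            have hdisj : Disjoint (D w0) (D w) := hdis w0 (mem_insert_self _ _) w
              (mem_insert_of_mem hw) (fun h => hw0 (h ▸ hw))
            ext o
            simp only [mem_inter, mem_union, mem_sdiff]
            constructor
            · rintro ⟨h1, h2⟩
              exact ⟨Or.inl ⟨h1, fun h3 => Finset.disjoint_left.1 hdisj h3 h2⟩, h2⟩
            · rintro ⟨h1 | h1, h2⟩
              · exact ⟨h1.1, h2⟩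
              · exact absurd h2 (Finset.disjoint_left.1 hdisj (hA0 h1))
          · ext o
            simp only [mem_inter, mem_union, mem_sdiff]
            constructor
            · rintro ⟨h1 | h1, h2⟩
              · exact absurd h2 h1.2
              · exact h1
            · intro h
              exact ⟨Or.inr h, hA0 h⟩
        · rintro ⟨R, T⟩ hq
          simp only [hX, hX0, mem_filter, mem_univ, true_and, mem_product, mem_powerset] at hq ⊢
          obtain ⟨⟨hR, _⟩, hT⟩ := hq
          intro w hw h
          apply hR w hw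
          rw [← h]
          have hdisj : Disjoint (D w0) (D w) := hdis w0 (mem_insert_self _ _) w
            (mem_insert_of_mem hw) (fun h => hw0 (h ▸ hw))
          ext o
          simp only [mem_inter, mem_union, mem_sdiff]
          constructor
          · rintro ⟨h1, h2⟩
            exact ⟨Or.inl ⟨h1, fun h3 => Finset.disjoint_left.1 hdisj h3 h2⟩, h2⟩
          · rintro ⟨h1 | h1, h2⟩
            · exact ⟨h1.1, h2⟩
            · exact absurd h2 (Finset.disjoint_left.1 hdisj (hT h1))
        · intro R _
          ext o
          simp only [mem_inter, mem_union, mem_sdiff]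
          have hoA : o ∈ A w0 → o ∈ D w0 := fun h => hA0 h
          tauto
        · rintro ⟨R, T⟩ hq
          simp only [hX, hX0, mem_filter, mem_univ, true_and, mem_product, mem_powerset] at hq ⊢
          obtain ⟨⟨_, hR⟩, hT⟩ := hq
          have hA' : ∀ o, o ∈ A w0 ↔ o ∈ R ∧ o ∈ D w0 := by
            intro o
            rw [← hR, mem_inter]
          ext o
          · simp only [mem_union, mem_sdiff, hA']
            have hoT : o ∈ T → o ∈ D w0 := fun h => hT h
            tauto
          · simp only [mem_inter, mem_union, mem_sdiff]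
            constructor
            · rintro ⟨h1 | h1, h2⟩
              · exact absurd h2 h1.2
              · exact h1
            · intro h
              exact ⟨Or.inr h, hT h⟩
        · intro R _
          congr 1
          ext o
          simp only [mem_inter, mem_union, mem_sdiff]
          have hoA : o ∈ A w0 → o ∈ D w0 := fun h => hA0 h
          tauto
      rw [h1, Finset.sum_product]
      apply Finset.sum_congr rfl
      intro R _
      have h2 : ∀ T ∈ (D w0).powerset, wt p ((R \ D w0) ∪ T) =
          (∏ o ∈ D w0, (if o ∈ T then p o else 1 - p o)) *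
            ∏ o ∈ (D w0)ᶜ, (if o ∈ R then p o else 1 - p o) := by
        intro T hT
        rw [mem_powerset] at hT
        rw [wt_split p (D w0)]
        congr 1
        · apply Finset.prod_congr rfl
          intro o ho
          have : (o ∈ R \ D w0 ∪ T) ↔ o ∈ T := by
            simp [ho]
          simp only [this]
        · apply Finset.prod_congr rfl
          intro o ho
          rw [mem_compl] at ho
          have : (o ∈ R \ D w0 ∪ T) ↔ o ∈ R := by
            simp only [mem_union, mem_sdiff, ho, not_false_eq_true, and_true]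
            exact ⟨fun h => h.elim id (fun h => absurd (hT h) ho), Or.inl⟩
          simp only [this]
      rw [Finset.sum_congr rfl h2, ← Finset.sum_mul, sum_powerset_wt, one_mul]
    have hεd : ε ^ d ≤ 1 := pow_le_one₀ hε0.le hε1
    -- the sum over X0
    have hX0' : ε ^ d * ∑ R ∈ X, wt p R ≤ ∑ R ∈ X0, wt p R := by
      rw [hsum, Finset.mul_sum]
      apply Finset.sum_le_sum
      intro R _
      rw [wt_split p (D w0) R]
      apply mul_le_mul_of_nonneg_right
      · calc ε ^ d ≤ ε ^ (D w0).card :=
              pow_le_pow_of_le_one hε0.le hε1 (hd w0 (mem_insert_self _ _))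
          _ = ∏ _o ∈ D w0, ε := by rw [Finset.prod_const]
          _ ≤ _ := by
            apply Finset.prod_le_prod (fun _ _ => hε0.le)
            intro o ho
            have := hpD w0 (mem_insert_self _ _) o ho
            split_ifs
            · exact this.1
            · linarith [this.2]
      · apply Finset.prod_nonneg
        intro o _
        split_ifs
        · exact (hp o).1
        · linarith [(hp o).2]
    have h1 : 0 ≤ 1 - ε ^ d := by linarith
    rw [card_insert_of_notMem hw0, pow_succ]
    calc ∑ R ∈ Y, wt p R ≤ (∑ R ∈ X, wt p R) * (1 - ε ^ d) := by nlinarith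
      _ ≤ (1 - ε ^ d) ^ W.card * (1 - ε ^ d) := mul_le_mul_of_nonneg_right ih' h1

end Pool.Agent.Q327.SMT
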