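import Pool.Agent.W994.AR.Final
import Pool.Agent.Q327.SMT.Prob

/-!
A random family of invariant relations is rich with high probability.
-/

namespace Pool.Agent.Q327.SMT

open Finset Pool.Agent.W994.AR

variable {B : Type}

/-- all the orbits of tuples of the lengths k j -/
abbrev Orbs (G : Subgroup (Equiv.Perm B)) {t : ℕ} (k : Fin t → ℕ) : Type :=
  Σ j : Fin t, Orb G (Fin (k j))

/-- The family of relations given by a set of orbits: the tuple v is in the j-th relation if the
pair of j and the orbit of v is in X. -/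
def rels (G : Subgroup (Equiv.Perm B)) {t : ℕ} (k : Fin t → ℕ) (X : Set (Orbs G k)) :
    Str (Fin t) k B :=
  fun j => {v | (⟨j, Quotient.mk (orb G (Fin (k j))) v⟩ : Orbs G k) ∈ X}

theorem rels_invar (G : Subgroup (Equiv.Perm B)) {t : ℕ} (k : Fin t → ℕ) (X : Set (Orbs G k))
    (j : Fin t) : Invar G (rels G k X j) := by
  intro g hg v hv
  have : (Quotient.mk (orb G (Fin (k j))) v) = Quotient.mk (orb G (Fin (k j))) (fun i => g (v i)) :=
    Quotient.sound (⟨g, hg, fun _ => rfl⟩ : Same G v (fun i => g (v i)))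
  simp only [rels, Set.mem_ofPred_eq] at hv ⊢
  rw [← this]
  exact hv

section words

variable (G : Subgroup (Equiv.Perm B)) (M : ℕ) (hM : 0 < M) {t : ℕ} (k : Fin t → ℕ) (j : Fin t)

/-- the map on orbits given by a word -/
def phi (A : Finset ℕ) : Orb G (Fin M) → Orbs G k := fun o =>
  ⟨j, Quotient.map' (s₁ := orb G (Fin M)) (s₂ := orb G (Fin (k j)))
    (fun u => u ∘ word M (k j) hM A) (fun _ _ h => Same.comp h _) o⟩

theorem phi_mk (A : Finset ℕ) (u : Fin M → B) : phi G M hM k j A (Quotient.mk (orb G (Fin M)) u) =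
    ⟨j, Quotient.mk (orb G (Fin (k j))) (u ∘ word M (k j) hM A)⟩ := rfl

theorem phi_inj (hMk : M ≤ k j) (A : Finset ℕ) : Function.Injective (phi G M hM k j A) := by
  intro o o' h
  obtain ⟨u, rfl⟩ := Quotient.exists_rep o
  obtain ⟨v, rfl⟩ := Quotient.exists_rep o'
  rw [phi_mk, phi_mk] at h
  have h1 := eq_of_heq (Sigma.mk.inj h).2
  apply Quotient.sound
  exact same_of_word M (k j) hM hMk A u v (Quotient.exact h1)

/-- the orbits of nonconstant tuples -/
def IsNC (o : Orb G (Fin M)) : Prop := ∃ u, NC u ∧ Quotient.mk (orb G (Fin M)) u = o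

theorem phi_ne (m : ℕ) (hk : (m + 1) * M ≤ k j) (A A' : Finset ℕ) (hA : A ⊆ Finset.Icc 1 m)
    (hA' : A' ⊆ Finset.Icc 1 m) (hne : A ≠ A') (o o' : Orb G (Fin M)) (ho : IsNC G M o)
    (ho' : IsNC G M o') : phi G M hM k j A o ≠ phi G M hM k j A' o' := by
  obtain ⟨u, hu, rfl⟩ := ho
  obtain ⟨v, hv, rfl⟩ := ho'
  intro h
  rw [phi_mk, phi_mk] at h
  have h1 := eq_of_heq (Sigma.mk.inj h).2
  exact word_differ M (k j) m hM hk A A' hA hA' hne u v hu hv (Quotient.exact h1)

/-- If the relation is not rich, then for some orbit o all the words fail. -/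
theorem not_rich (X : Set (Orbs G k)) (h : ¬ Rich G (Fin M) (rels G k X j)) :
    ∃ o : Orb G (Fin M), IsNC G M o ∧ ∀ A : Finset ℕ,
      ¬ ∀ o', IsNC G M o' → (phi G M hM k j A o' ∈ X ↔ o' ≠ o) := by
  unfold Rich at h
  push Not at h
  obtain ⟨v, hv, hbad⟩ := h
  refine ⟨Quotient.mk (orb G (Fin M)) v, ⟨v, hv, rfl⟩, ?_⟩
  intro A hEq
  have h1 : v ∘ word M (k j) hM A ∉ rels G k X j := by
    intro hin
    have h2 := (hEq (Quotient.mk (orb G (Fin M)) v) ⟨v, hv, rfl⟩).1 hin
    exact h2 rfl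
  obtain ⟨u, hu, hus, hun⟩ := hbad (word M (k j) hM A) h1
  apply hun
  exact (hEq (Quotient.mk (orb G (Fin M)) u) ⟨u, hu, rfl⟩).2 (fun h => hus (Quotient.exact h))

end words

open Classical in
/-- the probability that one of the relations is not rich -/
theorem rich_prob (G : Subgroup (Equiv.Perm B)) (M : ℕ) (hM : 0 < M) {t : ℕ} (k : Fin t → ℕ)
    (j : Fin t) (m : ℕ) (hk : (m + 1) * M ≤ k j) [Finite (Orb G (Fin M))] [Fintype (Orbs G k)]
    (p : Orbs G k → ℝ) (hp : ∀ o, 0 ≤ p o ∧ p o ≤ 1) (ε : ℝ) (hε0 : 0 < ε) (hε1 : ε ≤ 1)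
    (hε : ∀ o : Orb G (Fin (k j)), ε ≤ p ⟨j, o⟩ ∧ p ⟨j, o⟩ ≤ 1 - ε) :
    ∑ X ∈ (Finset.univ : Finset (Finset (Orbs G k))).filter
        (fun X : Finset (Orbs G k) => ¬ Rich G (Fin M) (rels G k (X : Set (Orbs G k)) j)), wt p X ≤
      Nat.card (Orb G (Fin M)) * (1 - ε ^ Nat.card (Orb G (Fin M))) ^ (2 ^ m) := by
  have := Fintype.ofFinite (Orb G (Fin M))
  have hMk : M ≤ k j := le_trans (by nlinarith) hk
  let ncO : Finset (Orb G (Fin M)) := Finset.univ.filter (fun o => IsNC G M o)
  let D : Finset ℕ → Finset (Orbs G k) := fun A => ncO.image (phi G M hM k j A)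
  let T : Orb G (Fin M) → Finset ℕ → Finset (Orbs G k) := fun o A =>
    (ncO.erase o).image (phi G M hM k j A)
  let W : Finset (Finset ℕ) := (Finset.Icc 1 m).powerset
  have hWcard : W.card = 2 ^ m := by
    simp [W]
  have hcount : ∀ o, ∑ X ∈ (Finset.univ : Finset (Finset (Orbs G k))).filter
      (fun R => ∀ w ∈ W, R ∩ D w ≠ T o w), wt p X ≤ (1 - ε ^ Nat.card (Orb G (Fin M))) ^ (2 ^ m) := by
    intro o
    rw [← hWcard]
    apply count p hp ε hε0 hε1
    · intro w _
      exact Finset.image_subset_image (Finset.erase_subset _ _)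
    · intro w _
      rw [Nat.card_eq_fintype_card]
      exact (Finset.card_image_le).trans (Finset.card_le_univ _)
    · intro w hw w' hw' hne
      rw [Finset.disjoint_left]
      intro x hx hx'
      obtain ⟨o1, ho1, h1⟩ := Finset.mem_image.1 hx
      obtain ⟨o2, ho2, h2⟩ := Finset.mem_image.1 hx'
      exact phi_ne G M hM k j m hk w w' (Finset.mem_powerset.1 hw) (Finset.mem_powerset.1 hw') hne
        o1 o2 (Finset.mem_filter.1 ho1).2 (Finset.mem_filter.1 ho2).2 (h1.trans h2.symm)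
    · intro w _ x hx
      obtain ⟨o1, _, h1⟩ := Finset.mem_image.1 hx
      rw [← h1]
      exact hε _
  have hbad : ∀ X : Finset (Orbs G k), ¬ Rich G (Fin M) (rels G k (X : Set (Orbs G k)) j) →
      ∃ o : Orb G (Fin M), ∀ w ∈ W, X ∩ D w ≠ T o w := by
    intro X hX
    obtain ⟨o, ho, h⟩ := not_rich G M hM k j _ hX
    refine ⟨o, fun A _ hEq => h A ?_⟩
    intro o' ho'
    have ho'D : phi G M hM k j A o' ∈ D A :=
      Finset.mem_image_of_mem _ (Finset.mem_filter.2 ⟨Finset.mem_univ _, ho'⟩)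
    constructor
    · intro hin hoo
      have h2 : phi G M hM k j A o' ∈ X ∩ D A :=
        Finset.mem_inter.2 ⟨Finset.mem_coe.1 hin, ho'D⟩
      rw [hEq] at h2
      obtain ⟨o'', ho'', h3⟩ := Finset.mem_image.1 h2
      have := phi_inj G M hM k j hMk A h3
      rw [this, hoo] at ho''
      exact Finset.notMem_erase _ _ ho''
    · intro hne
      have h2 : phi G M hM k j A o' ∈ T o A := by
        apply Finset.mem_image_of_mem
        rw [Finset.mem_erase]
        exact ⟨hne, Finset.mem_filter.2 ⟨Finset.mem_univ _, ho'⟩⟩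
      rw [← hEq, Finset.mem_inter] at h2
      exact Finset.mem_coe.2 h2.1
  calc ∑ X ∈ (Finset.univ : Finset (Finset (Orbs G k))).filter
        (fun X : Finset (Orbs G k) => ¬ Rich G (Fin M) (rels G k (X : Set (Orbs G k)) j)), wt p X
      ≤ ∑ X : Finset (Orbs G k), ∑ o : Orb G (Fin M),
          (if ∀ w ∈ W, X ∩ D w ≠ T o w then wt p X else 0) := by
        rw [Finset.sum_filter]
        apply Finset.sum_le_sum
        intro X _
        have hnn : ∀ o ∈ (Finset.univ : Finset (Orb G (Fin M))),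
            0 ≤ (if ∀ w ∈ W, X ∩ D w ≠ T o w then wt p X else 0) := by
          intro o _
          split_ifs
          · exact wt_nonneg hp X
          · exact le_rfl
        by_cases hX : Rich G (Fin M) (rels G k (X : Set (Orbs G k)) j)
        · rw [if_neg (not_not.2 hX)]
          exact Finset.sum_nonneg hnn
        · rw [if_pos hX]
          obtain ⟨o, ho⟩ := hbad X hX
          have h1 := Finset.single_le_sum hnn (Finset.mem_univ o)
          rw [if_pos ho] at h1
          exact h1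
    _ = ∑ o : Orb G (Fin M), ∑ X ∈ (Finset.univ : Finset (Finset (Orbs G k))).filter
          (fun R => ∀ w ∈ W, R ∩ D w ≠ T o w), wt p X := by
        rw [Finset.sum_comm]
        apply Finset.sum_congr rfl
        intro o _
        rw [Finset.sum_filter]
    _ ≤ ∑ _o : Orb G (Fin M), (1 - ε ^ Nat.card (Orb G (Fin M))) ^ (2 ^ m) :=
        Finset.sum_le_sum (fun o _ => hcount o)
    _ = _ := by
        rw [Finset.sum_const, Finset.card_univ, nsmul_eq_mul, Nat.card_eq_fintype_card]

end Pool.Agent.Q327.SMT
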