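import Pool.Agent.Q327.SMT.Bound
import Pool.Agent.Q327.SMT.Arith

/-!
Random relations that are invariant under groups of permutations of the coordinates.
-/

namespace Pool.Agent.Q327.SMT

open Finset Pool.Agent.W994.AR

variable {B : Type}

/-- v arises from u by an element of G and a permutation of the coordinates in H. -/
def Same2 (G : Subgroup (Equiv.Perm B)) {V : Type} (H : Subgroup (Equiv.Perm V)) (u v : V → B) :
    Prop :=
  ∃ g ∈ G, ∃ h ∈ H, ∀ i, g (u (h i)) = v i

/-- the orbits of tuples under G and the permutations of the coordinates in H -/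
def orb2 (G : Subgroup (Equiv.Perm B)) {V : Type} (H : Subgroup (Equiv.Perm V)) :
    Setoid (V → B) where
  r := Same2 G H
  iseqv := ⟨fun u => ⟨1, G.one_mem, 1, H.one_mem, fun _ => rfl⟩, by
    rintro u v ⟨g, hg, h, hh, e⟩
    refine ⟨g⁻¹, G.inv_mem hg, h⁻¹, H.inv_mem hh, fun i => ?_⟩
    rw [← e (h⁻¹ i)]
    simp, by
    rintro u v w ⟨g, hg, h, hh, e⟩ ⟨g', hg', h', hh', e'⟩
    refine ⟨g' * g, G.mul_mem hg' hg, h * h', H.mul_mem hh hh', fun i => ?_⟩
    rw [← e' i, ← e (h' i)]
    rfl⟩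

/-- all the orbits of tuples of the lengths k j, under G and the groups H j -/
abbrev Orbs2 (G : Subgroup (Equiv.Perm B)) {t : ℕ} (k : Fin t → ℕ)
    (H : ∀ j, Subgroup (Equiv.Perm (Fin (k j)))) : Type :=
  Σ j : Fin t, Quotient (orb2 G (H j))

/-- The family of relations given by a set of orbits: the tuple v is in the j-th relation if the
pair of j and the orbit of v is in X. -/
def rels2 (G : Subgroup (Equiv.Perm B)) {t : ℕ} (k : Fin t → ℕ)
    (H : ∀ j, Subgroup (Equiv.Perm (Fin (k j)))) (X : Set (Orbs2 G k H)) : Str (Fin t) k B :=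
  fun j => {v | (⟨j, Quotient.mk (orb2 G (H j)) v⟩ : Orbs2 G k H) ∈ X}

theorem rels2_same {G : Subgroup (Equiv.Perm B)} {t : ℕ} {k : Fin t → ℕ}
    {H : ∀ j, Subgroup (Equiv.Perm (Fin (k j)))} {X : Set (Orbs2 G k H)} {j : Fin t}
    {u v : Fin (k j) → B} (h : Same2 G (H j) u v) (hu : u ∈ rels2 G k H X j) :
    v ∈ rels2 G k H X j := by
  have : (Quotient.mk (orb2 G (H j)) u) = Quotient.mk (orb2 G (H j)) v := Quotient.sound h
  simp only [rels2, Set.mem_ofPred_eq] at hu ⊢
  rw [← this]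
  exact hu

theorem rels2_invar (G : Subgroup (Equiv.Perm B)) {t : ℕ} (k : Fin t → ℕ)
    (H : ∀ j, Subgroup (Equiv.Perm (Fin (k j)))) (X : Set (Orbs2 G k H))
    (j : Fin t) : Invar G (rels2 G k H X j) := by
  intro g hg v hv
  exact rels2_same ⟨g, hg, 1, (H j).one_mem, fun _ => rfl⟩ hv

/-- the relations are invariant under the permutations of the coordinates -/
theorem rels2_sym (G : Subgroup (Equiv.Perm B)) {t : ℕ} (k : Fin t → ℕ)
    (H : ∀ j, Subgroup (Equiv.Perm (Fin (k j)))) (X : Set (Orbs2 G k H))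
    (j : Fin t) : ∀ h ∈ H j, ∀ v ∈ rels2 G k H X j, v ∘ h ∈ rels2 G k H X j := by
  intro h hh v hv
  exact rels2_same ⟨1, G.one_mem, h, hh, fun _ => rfl⟩ hv

/-- all relations with both invariance properties arise exactly once -/
theorem rels2_unique (G : Subgroup (Equiv.Perm B)) {t : ℕ} (k : Fin t → ℕ)
    (H : ∀ j, Subgroup (Equiv.Perm (Fin (k j)))) (R : Str (Fin t) k B)
    (hR : ∀ j, Invar G (R j)) (hH : ∀ j, ∀ h ∈ H j, ∀ v ∈ R j, v ∘ h ∈ R j) :
    ∃! X : Set (Orbs2 G k H), rels2 G k H X = R := by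
  refine ⟨{x | ∃ v ∈ R x.1, Quotient.mk (orb2 G (H x.1)) v = x.2}, ?_, ?_⟩
  · funext j
    ext v
    constructor
    · rintro ⟨u, hu, h⟩
      obtain ⟨g, hg, σ, hσ, e⟩ : Same2 G (H j) u v := Quotient.exact h
      have h1 := hR j g hg _ (hH j σ hσ u hu)
      have h2 : (fun i => g ((u ∘ σ) i)) = v := funext e
      rwa [h2] at h1
    · intro hv
      exact ⟨v, hv, rfl⟩
  · rintro X rfl
    ext ⟨j, o⟩
    constructor
    · intro h
      obtain ⟨v, rfl⟩ := Quotient.exists_rep o
      exact ⟨v, h, rfl⟩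
    · rintro ⟨v, hv, h⟩
      simp only at h
      rw [← h]
      exact hv

theorem finite_orb2 (G : Subgroup (Equiv.Perm B)) {n : ℕ} (H : Subgroup (Equiv.Perm (Fin n)))
    [Finite (Orb G (Fin n))] : Finite (Quotient (orb2 G H)) := by
  let f : Orb G (Fin n) → Quotient (orb2 G H) :=
    Quotient.lift (fun v => Quotient.mk (orb2 G H) v) (by
      rintro u v ⟨g, hg, e⟩
      exact Quotient.sound (⟨g, hg, 1, H.one_mem, e⟩ : Same2 G H u v))
  apply Finite.of_surjective f
  intro o
  obtain ⟨v, rfl⟩ := Quotient.exists_rep o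
  exact ⟨Quotient.mk (orb G (Fin n)) v, rfl⟩

open Classical in
/-- the number of the coordinates with the value b -/
theorem mult_eq {M k : ℕ} {c : Fin M → ℕ} {w : Fin k → Fin M}
    (hw : ∀ i, (Finset.univ.filter (fun p => w p = i)).card = c i) (u : Fin M → B) (b : B) :
    (Finset.univ.filter (fun p => u (w p) = b)).card =
      ∑ i ∈ Finset.univ.filter (fun i => u i = b), c i := by
  rw [Finset.card_eq_sum_card_fiberwise (f := w) (t := Finset.univ.filter (fun i => u i = b))]
  · apply Finset.sum_congr rfl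
    intro i hi
    rw [← hw i]
    congr 1
    ext p
    simp only [Finset.mem_filter, Finset.mem_univ, true_and] at hi ⊢
    constructor
    · rintro ⟨_, h⟩
      exact h
    · intro h
      refine ⟨?_, h⟩
      rw [h]
      exact hi
  · intro p hp
    simp only [Finset.coe_filter, Finset.mem_univ, true_and, Set.mem_ofPred_eq] at hp ⊢
    exact hp

open Classical in
theorem same2_mult {G : Subgroup (Equiv.Perm B)} {k : ℕ} {H : Subgroup (Equiv.Perm (Fin k))}
    {x y : Fin k → B} (h : Same2 G H x y) : ∃ g ∈ G, ∀ b,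
      (Finset.univ.filter (fun p => x p = b)).card =
        (Finset.univ.filter (fun p => y p = g b)).card := by
  obtain ⟨g, hg, σ, _, e⟩ := h
  refine ⟨g, hg, fun b => ?_⟩
  symm
  apply Finset.card_bij (fun p _ => σ p)
  · intro p hp
    simp only [Finset.mem_filter, Finset.mem_univ, true_and] at hp ⊢
    rw [← e p] at hp
    exact g.injective hp
  · intro p _ q _ h
    exact σ.injective h
  · intro p hp
    simp only [Finset.mem_filter, Finset.mem_univ, true_and] at hp
    refine ⟨σ⁻¹ p, ?_, by simp⟩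
    simp only [Finset.mem_filter, Finset.mem_univ, true_and]
    have h1 : σ (σ⁻¹ p) = p := by simp
    rw [← e, h1, hp]

/-- the words with the numbers of letters cnt M k x -/
def IsWd (M k x : ℕ) (w : Fin k → Fin M) : Prop :=
  ∀ i, (Finset.univ.filter (fun p => w p = i)).card = cnt M k x i

theorem words_eq {G : Subgroup (Equiv.Perm B)} {M k x y Y L : ℕ} (hM : 0 < M)
    {H : Subgroup (Equiv.Perm (Fin k))}
    (hY : L * 2 ^ M ≤ Y) (hx : Y ≤ x ∧ x < Y + L) (hy : Y ≤ y ∧ y < Y + L)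
    (hk : (x + y) * 2 ^ M ≤ k) {w w' : Fin k → Fin M} (hw : IsWd M k x w) (hw' : IsWd M k y w')
    {u v : Fin M → B} (h : Same2 G H (u ∘ w) (v ∘ w')) :
    (x = y → Same G u v) ∧ (NC u → x = y) := by
  classical
  obtain ⟨g, hg, hb⟩ := same2_mult h
  have hs : ∀ b, ∑ i ∈ Finset.univ.filter (fun i => u i = b), cnt M k x i =
      ∑ i ∈ Finset.univ.filter (fun i => v i = g b), cnt M k y i := by
    intro b
    have h1 := hb b
    have h2 := mult_eq hw u b
    have h3 := mult_eq hw' v (g b)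
    rw [← h2, ← h3]
    exact h1
  constructor
  · intro hxy
    refine ⟨g, hg, fun i => ?_⟩
    have h1 := (sums_eq hM hY hx hy hk _ _ (hs (u i))).1 hxy
    have h2 : i ∈ Finset.univ.filter (fun i' => u i' = u i) := by simp
    rw [h1] at h2
    simp only [Finset.mem_filter, Finset.mem_univ, true_and] at h2
    exact h2.symm
  · rintro ⟨i, j, hij⟩
    apply (sums_eq hM hY hx hy hk _ _ (hs (u i))).2
    · exact ⟨i, by simp⟩
    · intro h1
      have h2 : j ∈ Finset.univ.filter (fun i' => u i' = u i) := by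
        rw [h1]
        exact Finset.mem_univ _
      simp only [Finset.mem_filter, Finset.mem_univ, true_and] at h2
      exact hij h2.symm

section words

variable (G : Subgroup (Equiv.Perm B)) (M : ℕ) {t : ℕ} (k : Fin t → ℕ)
  (H : ∀ j, Subgroup (Equiv.Perm (Fin (k j)))) (j : Fin t)

/-- the map on orbits given by a word -/
def psi (w : Fin (k j) → Fin M) : Orb G (Fin M) → Orbs2 G k H := fun o =>
  ⟨j, Quotient.lift (fun u : Fin M → B => Quotient.mk (orb2 G (H j)) (u ∘ w)) (by
    rintro u v ⟨g, hg, e⟩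
    exact Quotient.sound (⟨g, hg, 1, (H j).one_mem, fun i => e (w i)⟩ :
      Same2 G (H j) (u ∘ w) (v ∘ w))) o⟩

theorem psi_mk (w : Fin (k j) → Fin M) (u : Fin M → B) :
    psi G M k H j w (Quotient.mk (orb G (Fin M)) u) =
    ⟨j, Quotient.mk (orb2 G (H j)) (u ∘ w)⟩ := rfl

theorem psi_exact {w w' : Fin (k j) → Fin M} {u v : Fin M → B}
    (h : psi G M k H j w (Quotient.mk (orb G (Fin M)) u) =
      psi G M k H j w' (Quotient.mk (orb G (Fin M)) v)) :
    Same2 G (H j) (u ∘ w) (v ∘ w') := by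
  rw [psi_mk, psi_mk] at h
  exact Quotient.exact (eq_of_heq (Sigma.mk.inj h).2)

/-- If the relation is not rich, then for some orbit o all the words fail. -/
theorem not_rich2 (X : Set (Orbs2 G k H)) (h : ¬ Rich G (Fin M) (rels2 G k H X j)) :
    ∃ o : Orb G (Fin M), IsNC G M o ∧ ∀ w : Fin (k j) → Fin M,
      ¬ ∀ o', IsNC G M o' → (psi G M k H j w o' ∈ X ↔ o' ≠ o) := by
  unfold Rich at h
  push Not at h
  obtain ⟨v, hv, hbad⟩ := h
  refine ⟨Quotient.mk (orb G (Fin M)) v, ⟨v, hv, rfl⟩, ?_⟩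
  intro w hEq
  have h1 : v ∘ w ∉ rels2 G k H X j := by
    intro hin
    have h2 := (hEq (Quotient.mk (orb G (Fin M)) v) ⟨v, hv, rfl⟩).1 hin
    exact h2 rfl
  obtain ⟨u, hu, hus, hun⟩ := hbad w h1
  apply hun
  exact (hEq (Quotient.mk (orb G (Fin M)) u) ⟨u, hu, rfl⟩).2 (fun h => hus (Quotient.exact h))

end words

open Classical in
/-- the probability that one of the relations is not rich -/
theorem rich_prob2 (G : Subgroup (Equiv.Perm B)) (M : ℕ) (hM : 0 < M) {t : ℕ} (k : Fin t → ℕ)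
    (H : ∀ j, Subgroup (Equiv.Perm (Fin (k j))))
    (j : Fin t) (L : ℕ) (hk : 4 * L * 4 ^ M ≤ k j) [Finite (Orb G (Fin M))]
    [Fintype (Orbs2 G k H)]
    (p : Orbs2 G k H → ℝ) (hp : ∀ o, 0 ≤ p o ∧ p o ≤ 1) (ε : ℝ) (hε0 : 0 < ε) (hε1 : ε ≤ 1)
    (hε : ∀ o : Quotient (orb2 G (H j)), ε ≤ p ⟨j, o⟩ ∧ p ⟨j, o⟩ ≤ 1 - ε) :
    ∑ X ∈ (Finset.univ : Finset (Finset (Orbs2 G k H))).filter
        (fun X : Finset (Orbs2 G k H) =>
          ¬ Rich G (Fin M) (rels2 G k H (X : Set (Orbs2 G k H)) j)), wt p X ≤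
      Nat.card (Orb G (Fin M)) * (1 - ε ^ Nat.card (Orb G (Fin M))) ^ L := by
  have := Fintype.ofFinite (Orb G (Fin M))
  -- the words
  set Y := L * 2 ^ M with hY
  have hword : ∀ a : ℕ, ∃ w : Fin (k j) → Fin M, a < L → IsWd M (k j) (Y + a) w := by
    intro a
    by_cases ha : a < L
    · have h1 : (Y + a) * 2 ^ M ≤ k j := by
        have h2 : (Y + a) ≤ 4 * L * 2 ^ M := by
          have : 1 ≤ 2 ^ M := Nat.one_le_two_pow
          nlinarith
        calc (Y + a) * 2 ^ M ≤ 4 * L * 2 ^ M * 2 ^ M := Nat.mul_le_mul_right _ h2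
          _ = 4 * L * 4 ^ M := by
              rw [Nat.mul_assoc, ← Nat.mul_pow]
          _ ≤ k j := hk
      obtain ⟨w, hw⟩ := exists_word (cnt M (k j) (Y + a)) (sum_cnt_univ hM h1)
      exact ⟨w, fun _ => hw⟩
    · exact ⟨fun _ => ⟨0, hM⟩, fun h => absurd h ha⟩
  choose wd hwd using hword
  have hkk : ∀ a b, a < L → b < L → ((Y + a) + (Y + b)) * 2 ^ M ≤ k j := by
    intro a b ha hb
    have h2 : ((Y + a) + (Y + b)) ≤ 4 * L * 2 ^ M := by
      have : 1 ≤ 2 ^ M := Nat.one_le_two_pow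
      nlinarith
    calc ((Y + a) + (Y + b)) * 2 ^ M ≤ 4 * L * 2 ^ M * 2 ^ M := Nat.mul_le_mul_right _ h2
      _ = 4 * L * 4 ^ M := by
          rw [Nat.mul_assoc, ← Nat.mul_pow]
      _ ≤ k j := hk
  have hne : ∀ a b, a < L → b < L → a ≠ b → ∀ o o', IsNC G M o → IsNC G M o' →
      psi G M k H j (wd a) o ≠ psi G M k H j (wd b) o' := by
    rintro a b ha hb hab _ _ ⟨u, hu, rfl⟩ ⟨v, _, rfl⟩ h
    have h1 := (words_eq hM (le_refl _) ⟨Nat.le_add_right _ _, by omega⟩
      ⟨Nat.le_add_right _ _, by omega⟩ (hkk a b ha hb) (hwd a ha) (hwd b hb)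
      (psi_exact G M k H j h)).2 hu
    omega
  have hinj : ∀ a, a < L → Function.Injective (psi G M k H j (wd a)) := by
    intro a ha o o' h
    obtain ⟨u, rfl⟩ := Quotient.exists_rep o
    obtain ⟨v, rfl⟩ := Quotient.exists_rep o'
    apply Quotient.sound
    exact (words_eq hM (le_refl _) ⟨Nat.le_add_right _ _, by omega⟩
      ⟨Nat.le_add_right _ _, by omega⟩ (hkk a a ha ha) (hwd a ha) (hwd a ha)
      (psi_exact G M k H j h)).1 rfl
  let ncO : Finset (Orb G (Fin M)) := Finset.univ.filter (fun o => IsNC G M o)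
  let D : ℕ → Finset (Orbs2 G k H) := fun a => ncO.image (psi G M k H j (wd a))
  let T : Orb G (Fin M) → ℕ → Finset (Orbs2 G k H) := fun o a =>
    (ncO.erase o).image (psi G M k H j (wd a))
  let W : Finset ℕ := Finset.range L
  have hWcard : W.card = L := by
    simp [W]
  have hcount : ∀ o, ∑ X ∈ (Finset.univ : Finset (Finset (Orbs2 G k H))).filter
      (fun R => ∀ w ∈ W, R ∩ D w ≠ T o w), wt p X ≤ (1 - ε ^ Nat.card (Orb G (Fin M))) ^ L := by
    intro o
    have hW2 : (1 - ε ^ Nat.card (Orb G (Fin M))) ^ L =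
        (1 - ε ^ Nat.card (Orb G (Fin M))) ^ W.card := by rw [hWcard]
    rw [hW2]
    apply count p hp ε hε0 hε1
    · intro w _
      exact Finset.image_subset_image (Finset.erase_subset _ _)
    · intro w _
      rw [Nat.card_eq_fintype_card]
      exact (Finset.card_image_le).trans (Finset.card_le_univ _)
    · intro w hw w' hw' hne'
      rw [Finset.disjoint_left]
      intro x hx hx'
      obtain ⟨o1, ho1, h1⟩ := Finset.mem_image.1 hx
      obtain ⟨o2, ho2, h2⟩ := Finset.mem_image.1 hx'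
      exact hne w w' (Finset.mem_range.1 hw) (Finset.mem_range.1 hw') hne'
        o1 o2 (Finset.mem_filter.1 ho1).2 (Finset.mem_filter.1 ho2).2 (h1.trans h2.symm)
    · intro w _ x hx
      obtain ⟨o1, _, h1⟩ := Finset.mem_image.1 hx
      rw [← h1]
      exact hε _
  have hbad : ∀ X : Finset (Orbs2 G k H),
      ¬ Rich G (Fin M) (rels2 G k H (X : Set (Orbs2 G k H)) j) →
      ∃ o : Orb G (Fin M), ∀ w ∈ W, X ∩ D w ≠ T o w := by
    intro X hX
    obtain ⟨o, ho, h⟩ := not_rich2 G M k H j _ hX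
    refine ⟨o, fun a ha hEq => h (wd a) ?_⟩
    intro o' ho'
    have ho'D : psi G M k H j (wd a) o' ∈ D a :=
      Finset.mem_image_of_mem _ (Finset.mem_filter.2 ⟨Finset.mem_univ _, ho'⟩)
    constructor
    · intro hin hoo
      have h2 : psi G M k H j (wd a) o' ∈ X ∩ D a :=
        Finset.mem_inter.2 ⟨Finset.mem_coe.1 hin, ho'D⟩
      rw [hEq] at h2
      obtain ⟨o'', ho'', h3⟩ := Finset.mem_image.1 h2
      have := hinj a (Finset.mem_range.1 ha) h3
      rw [this, hoo] at ho''
      exact Finset.notMem_erase _ _ ho''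
    · intro hne'
      have h2 : psi G M k H j (wd a) o' ∈ T o a := by
        apply Finset.mem_image_of_mem
        rw [Finset.mem_erase]
        exact ⟨hne', Finset.mem_filter.2 ⟨Finset.mem_univ _, ho'⟩⟩
      rw [← hEq, Finset.mem_inter] at h2
      exact Finset.mem_coe.2 h2.1
  calc ∑ X ∈ (Finset.univ : Finset (Finset (Orbs2 G k H))).filter
        (fun X : Finset (Orbs2 G k H) =>
          ¬ Rich G (Fin M) (rels2 G k H (X : Set (Orbs2 G k H)) j)), wt p X
      ≤ ∑ X : Finset (Orbs2 G k H), ∑ o : Orb G (Fin M),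
          (if ∀ w ∈ W, X ∩ D w ≠ T o w then wt p X else 0) := by
        rw [Finset.sum_filter]
        apply Finset.sum_le_sum
        intro X _
        have hnn : ∀ o ∈ (Finset.univ : Finset (Orb G (Fin M))),
            0 ≤ (if ∀ w ∈ W, X ∩ D w ≠ T o w then wt p X else 0) := by
          intro o _
          split_ifs
          · exact wt_nonneg hp X
          · exact le_rfl
        by_cases hX : Rich G (Fin M) (rels2 G k H (X : Set (Orbs2 G k H)) j)
        · rw [if_neg (not_not.2 hX)]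
          exact Finset.sum_nonneg hnn
        · rw [if_pos hX]
          obtain ⟨o, ho⟩ := hbad X hX
          have h1 := Finset.single_le_sum hnn (Finset.mem_univ o)
          rw [if_pos ho] at h1
          exact h1
    _ = ∑ o : Orb G (Fin M), ∑ X ∈ (Finset.univ : Finset (Finset (Orbs2 G k H))).filter
          (fun R => ∀ w ∈ W, R ∩ D w ≠ T o w), wt p X := by
        rw [Finset.sum_comm]
        apply Finset.sum_congr rfl
        intro o _
        rw [Finset.sum_filter]
    _ ≤ ∑ _o : Orb G (Fin M), (1 - ε ^ Nat.card (Orb G (Fin M))) ^ L :=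
        Finset.sum_le_sum (fun o _ => hcount o)
    _ = _ := by
        rw [Finset.sum_const, Finset.card_univ, nsmul_eq_mul, Nat.card_eq_fintype_card]

end Pool.Agent.Q327.SMT
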