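import Pool.Agent.Q327.SMT.Sym

/-!
The bound for the probability that a random relation with symmetries of the coordinates is not
rich.
-/

namespace Pool.Agent.Q327.SMT

open Finset Pool.Agent.W994.AR

variable {B : Type}

theorem many_bound2 (G : Subgroup (Equiv.Perm B)) (M : ℕ) (hM : 0 < M)
    (hfin : ∀ k, Finite (Orb G (Fin k))) (ε : ℝ) (hε0 : 0 < ε) (hε1 : ε ≤ 1) :
    ∃ C δ : ℝ, 0 < C ∧ 0 < δ ∧ ∀ (t : ℕ) (k : Fin t → ℕ) (m : ℕ)
      (H : ∀ j, Subgroup (Equiv.Perm (Fin (k j)))) (p : Orbs2 G k H → ℝ),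
      (∀ j, m ≤ k j) → (∀ o, 0 ≤ p o ∧ p o ≤ 1) → (∀ o, ε ≤ p o ∧ p o ≤ 1 - ε) →
      Prob p (fun X => ∃ j, ¬ Rich G (Fin M) (rels2 G k H X j)) ≤
        t * C * Real.exp (-(δ * m)) := by
  classical
  set N := Nat.card (Orb G (Fin M)) with hN
  have hN0 : (0 : ℝ) ≤ N := Nat.cast_nonneg _
  have hx0 : (0 : ℝ) < ε ^ N := by positivity
  have hx1 : ε ^ N ≤ 1 := pow_le_one₀ hε0.le hε1
  refine ⟨N * Real.exp 1 + 1, ε ^ N / (4 * 4 ^ M), by positivity, by positivity, ?_⟩
  intro t k m H p hm hp01 hp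
  have := hfin M
  have hF : ∀ i, Finite (Quotient (orb2 G (H i))) := fun i => by
    have := hfin (k i)
    exact finite_orb2 G (H i)
  have := Fintype.ofFinite (Orbs2 G k H)
  refine (prob_union hp01 _).trans ?_
  have hone : ∀ j : Fin t, Prob p (fun X => ¬ Rich G (Fin M) (rels2 G k H X j)) ≤
      (N * Real.exp 1 + 1) * Real.exp (-(ε ^ N / (4 * 4 ^ M) * m)) := by
    intro j
    set L := k j / (4 * 4 ^ M) with hL
    have hLk : 4 * L * 4 ^ M ≤ k j := by
      have := Nat.div_mul_le_self (k j) (4 * 4 ^ M)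
      calc 4 * L * 4 ^ M = L * (4 * 4 ^ M) := by ring
        _ ≤ k j := this
    have h := rich_prob2 G M hM k H j L hLk p hp01 ε hε0 hε1 (fun o => hp ⟨j, o⟩)
    rw [← hN] at h
    rw [prob_eq]
    refine le_trans (le_of_eq ?_) (h.trans ?_)
    · apply Finset.sum_congr
      · ext X
        simp only [Finset.mem_filter]
      · intro X _
        unfold wt
        apply Finset.prod_congr rfl
        intro o _
        by_cases ho : o ∈ X
        · rw [if_pos ho, if_pos ho]
        · rw [if_neg ho, if_neg ho]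
    have h1 : (1 - ε ^ N) ^ L ≤ Real.exp (-(ε ^ N * L)) := by
      have h2 : 1 - ε ^ N ≤ Real.exp (-ε ^ N) := by
        have := Real.add_one_le_exp (-ε ^ N)
        linarith
      calc (1 - ε ^ N) ^ L ≤ Real.exp (-ε ^ N) ^ L :=
            pow_le_pow_left₀ (by linarith) h2 _
        _ = _ := by
            rw [← Real.exp_nat_mul]
            congr 1
            ring
    have hP : (0 : ℝ) < 4 * 4 ^ M := by positivity
    have h3 : (m : ℝ) / (4 * 4 ^ M) ≤ L + 1 := by
      rw [div_le_iff₀ hP]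
      have h4 : k j < (L + 1) * (4 * 4 ^ M) :=
        Nat.lt_mul_of_div_lt (Nat.lt_succ_self _) (by positivity)
      have h5 : (k j : ℝ) < (L + 1) * (4 * 4 ^ M) := by exact_mod_cast h4
      have h6 : (m : ℝ) ≤ k j := by exact_mod_cast hm j
      linarith
    have h7 : -(ε ^ N * L) ≤ 1 + -(ε ^ N / (4 * 4 ^ M) * m) := by
      have h8 : ε ^ N / (4 * 4 ^ M) * m = ε ^ N * (m / (4 * 4 ^ M)) := by ring
      rw [h8]
      have h9 := mul_le_mul_of_nonneg_left h3 hx0.le
      linarith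
    have h10 : (1 - ε ^ N) ^ L ≤ Real.exp 1 * Real.exp (-(ε ^ N / (4 * 4 ^ M) * m)) := by
      rw [← Real.exp_add]
      exact h1.trans (Real.exp_le_exp.2 h7)
    calc (N : ℝ) * (1 - ε ^ N) ^ L
        ≤ N * (Real.exp 1 * Real.exp (-(ε ^ N / (4 * 4 ^ M) * m))) :=
          mul_le_mul_of_nonneg_left h10 hN0
      _ ≤ (N * Real.exp 1 + 1) * Real.exp (-(ε ^ N / (4 * 4 ^ M) * m)) := by
          have := Real.exp_pos (-(ε ^ N / (4 * 4 ^ M) * m))
          nlinarith
  calc ∑ j, Prob p (fun X => ¬ Rich G (Fin M) (rels2 G k H X j))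
      ≤ ∑ _j : Fin t, (N * Real.exp 1 + 1) * Real.exp (-(ε ^ N / (4 * 4 ^ M) * m)) :=
        Finset.sum_le_sum (fun j _ => hone j)
    _ = _ := by
        rw [Finset.sum_const, Finset.card_univ, Fintype.card_fin, nsmul_eq_mul]
        ring

open Classical in
/-- the uniform distribution -/
theorem prob_half {Ω : Type} [Finite Ω] (E : Set Ω → Prop) :
    ({X : Set Ω | E X}.ncard : ℝ) = Prob (fun _ : Ω => (1 / 2 : ℝ)) E * Nat.card (Set Ω) := by
  have := Fintype.ofFinite Ω
  rw [prob_eq]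
  have h1 : ∀ X ∈ (Finset.univ : Finset (Finset Ω)).filter (fun X : Finset Ω => E (X : Set Ω)),
      wt (fun _ : Ω => (1 / 2 : ℝ)) X = (1 / 2 : ℝ) ^ Fintype.card Ω := by
    intro X _
    unfold wt
    have h2 : ∀ o ∈ (Finset.univ : Finset Ω), (if o ∈ X then (1 / 2 : ℝ) else 1 - 1 / 2) = 1 / 2 := by
      intro o _
      split_ifs <;> norm_num
    rw [Finset.prod_congr rfl h2, Finset.prod_const, Finset.card_univ]
  rw [Finset.sum_congr rfl h1, Finset.sum_const, nsmul_eq_mul]
  have h3 : Nat.card (Set Ω) = 2 ^ Fintype.card Ω := by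
    rw [Nat.card_eq_fintype_card, Fintype.card_set]
  have h4 : {X : Set Ω | E X}.ncard =
      ((Finset.univ : Finset (Finset Ω)).filter (fun X : Finset Ω => E (X : Set Ω))).card := by
    have hfin : {X : Set Ω | E X}.Finite := Set.toFinite _
    rw [Set.ncard_eq_toFinset_card _ hfin]
    apply Finset.card_nbij' (fun X : Set Ω => X.toFinset) (fun X : Finset Ω => (X : Set Ω))
    · intro X hX
      rw [Finset.mem_coe, Set.Finite.mem_toFinset] at hX
      rw [Finset.mem_coe, Finset.mem_filter]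
      refine ⟨Finset.mem_univ _, ?_⟩
      rw [Set.coe_toFinset]
      exact hX
    · intro X hX
      rw [Finset.mem_coe, Set.Finite.mem_toFinset]
      exact (Finset.mem_filter.1 (Finset.mem_coe.1 hX)).2
    · intro X _
      exact Set.coe_toFinset X
    · intro X _
      simp
  rw [h3, h4]
  push_cast
  rw [mul_assoc, ← mul_pow]
  norm_num

end Pool.Agent.Q327.SMT
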